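import Pool.Agent.helper84.NR.SpecW

set_option autoImplicit false

namespace Pool.Agent.helper84.NR

open scoped Classical
open Finset

theorem RTA_core (hIDX : IDX_stmt) (hEDG : EDG_stmt) (hWW0 : WW0_stmt) : RTA_stmt := by
  intro V F M x y A i hne hAx hi1 hin halt
  obtain ⟨hw0, hwn⟩ := hWW0 V F M x A hAx
  obtain ⟨h1, h2, h3, h4, h5⟩ := hIDX V F M.toCyc A (st M x A)
  have hn3 := M.three A
  have hww : ∀ k, ww M x A k = M.bd A (st M x A + k) := fun k => rfl
  have hinj : ∀ a b, a < M.len A → b < M.len A → ww M x A a = ww M x A b → a = b := by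
    intro a b ha hb h
    exact h1 a b ha hb h
  have hnox : ¬ ∃ B, OnV M.toCyc B y ∧ OnV M.toCyc B x := by
    rintro ⟨B, hBy, hBx⟩
    exact hne B ⟨hBx, hBy⟩
  have hvx : ∀ k, 1 ≤ k → k < M.len A → x ≠ ww M x A k := by
    intro k hk1 hkn h
    have := hinj 0 k (by omega) hkn (by rw [hw0]; exact h)
    omega
  have hOnV : ∀ k, OnV M.toCyc A (ww M x A k) := fun k => ⟨st M x A + k, rfl⟩
  have hOnE : ∀ k, OnE M.toCyc A s(ww M x A k, ww M x A (k + 1)) := fun k =>
    ⟨st M x A + k, rfl⟩
  have hedge : ∀ k, 1 ≤ k → k < M.len A → OnE M.toCyc A s(x, ww M x A k) →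
      k = 1 ∨ k = M.len A - 1 := by
    intro k hk1 hkn he
    have he' : OnE M.toCyc A s(M.bd A (st M x A + 0), M.bd A (st M x A + k)) := by
      have e0 : M.bd A (st M x A + 0) = x := hw0
      rw [e0]
      exact he
    rcases h4 0 k (by omega) hkn he' with h | h
    · left; omega
    · right; exact h.2
  by_cases hadj : Adj M.toCyc x (ww M x A i)
  · refine ⟨1, fun j => if j = 0 then x else ww M x A i, le_rfl, by simp, by simp, ?_, ?_, ?_, ?_⟩
    · intro a b ha hb h
      by_cases ha0 : a = 0
      · by_cases hb0 : b = 0
        · omega
        · simp only [ha0, hb0, if_true, if_false] at h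
          exact absurd h (hvx i hi1 hin)
      · by_cases hb0 : b = 0
        · simp only [ha0, hb0, if_true, if_false] at h
          exact absurd h.symm (hvx i hi1 hin)
        · omega
    · intro j hj
      have hj0 : j = 0 := by omega
      subst hj0
      have := (hEDG V F M).2 A x (ww M x A i) hadj hAx (hOnV i)
      simpa using this
    · intro j hj
      have hj0 : j = 0 := by omega
      subst hj0
      simpa using hnox
    · intro f _ _ j hj1 hj2 _
      omega
  · rcases halt with halt | halt
    · refine ⟨i, fun j => ww M x A j, hi1, hw0, rfl, ?_, ?_, ?_, ?_⟩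
      · intro a b ha hb h
        exact hinj a b (by omega) (by omega) h
      · intro j hj
        exact hOnE j
      · intro j hj
        rcases Nat.eq_zero_or_pos j with h0 | h0
        · subst h0
          show ¬ ∃ B, OnV M.toCyc B y ∧ OnV M.toCyc B (ww M x A 0)
          rw [hw0]
          exact hnox
        · exact halt j h0 hj
      · intro f hfx hfA j hj1 hji hfj
        obtain ⟨e1, -, -⟩ := M.poly A f (Ne.symm hfA) x (ww M x A j) (hvx j hj1 (by omega)) hAx
          (hOnV j) hfx hfj
        rcases hedge j hj1 (by omega) e1 with h | h
        · exact h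
        · exfalso
          have hji' : j = i := by omega
          subst hji'
          exact hadj ⟨A, e1⟩
    · refine ⟨M.len A - i, fun j => ww M x A (M.len A - j), by omega, ?_, ?_, ?_, ?_, ?_, ?_⟩
      · show ww M x A (M.len A - 0) = x
        rw [Nat.sub_zero]
        exact hwn
      · show ww M x A (M.len A - (M.len A - i)) = ww M x A i
        rw [Nat.sub_sub_self hin.le]
      · intro a b ha hb h
        have h' : ww M x A (M.len A - a) = ww M x A (M.len A - b) := h
        rcases Nat.eq_zero_or_pos a with ha0 | ha0
        · rcases Nat.eq_zero_or_pos b with hb0 | hb0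
          · omega
          · exfalso
            subst ha0
            rw [Nat.sub_zero, hwn] at h'
            exact hvx (M.len A - b) (by omega) (by omega) h'
        · rcases Nat.eq_zero_or_pos b with hb0 | hb0
          · exfalso
            subst hb0
            rw [Nat.sub_zero, hwn] at h'
            exact hvx (M.len A - a) (by omega) (by omega) h'.symm
          · have := hinj _ _ (by omega) (by omega) h'
            omega
      · intro j hj
        show OnE M.toCyc A s(ww M x A (M.len A - j), ww M x A (M.len A - (j + 1)))
        have e : M.len A - j = M.len A - (j + 1) + 1 := by omega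
        rw [e, Sym2.eq_swap]
        exact hOnE _
      · intro j hj
        show ¬ ∃ B, OnV M.toCyc B y ∧ OnV M.toCyc B (ww M x A (M.len A - j))
        rcases Nat.eq_zero_or_pos j with h0 | h0
        · subst h0
          rw [Nat.sub_zero, hwn]
          exact hnox
        · exact halt (M.len A - j) (by omega) (by omega)
      · intro f hfx hfA j hj1 hji hfj
        have hfj' : OnV M.toCyc f (ww M x A (M.len A - j)) := hfj
        obtain ⟨e1, -, -⟩ := M.poly A f (Ne.symm hfA) x (ww M x A (M.len A - j))
          (hvx _ (by omega) (by omega)) hAx (hOnV _) hfx hfj'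
        rcases hedge (M.len A - j) (by omega) (by omega) e1 with h | h
        · exfalso
          have hji' : M.len A - j = i := by omega
          rw [hji'] at e1
          exact hadj ⟨A, e1⟩
        · omega

theorem RTA : RTA_stmt := RTA_core h_IDX h_EDG h_WW0

end Pool.Agent.helper84.NR
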